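import Pool.Agent.Helper71.E5.WStmts2
import Pool.Agent.Helper35.E5.SLACK
import Pool.Agent.Helper36.E5.PERHD
import Pool.Agent.Helper36.E5.LG
import Pool.Agent.Helper55.E5.WARC
import Pool.Agent.Helper49.E5.TRI

/-!
MP_efd95c_co, wheels of type C: row GEND (an end kink with a slack spoke; the kink is replaced by a
point strictly inside the r-hull of the other three touching points).
-/

set_option autoImplicit false

open scoped MeasureTheory ENNReal Topology
open Complex

noncomputable section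

namespace E5

namespace H38

theorem crs_eq (u v : ℂ) : crs u v = u.re * v.im - u.im * v.re := by
  unfold crs
  rw [Complex.mul_im, Complex.conj_re, Complex.conj_im]
  ring

theorem dsq (a b : ℂ) : dist a b ^ 2 = (a.re - b.re) ^ 2 + (a.im - b.im) ^ 2 := by
  rw [dist_eq_norm, ← Complex.normSq_eq_norm_sq, Complex.normSq_apply, Complex.sub_re,
    Complex.sub_im]
  ring

/-- real form of `lens` -/
theorem lens_real {X1 X2 B1 B2 Z1 Z2 V1 V2 : ℝ} (hX : X1 ^ 2 + X2 ^ 2 = 1)
    (hB : B1 ^ 2 + B2 ^ 2 = 1) (hD : 0 < X1 * B2 - X2 * B1) (hZ : Z1 ^ 2 + Z2 ^ 2 ≤ 1)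
    (hs : (B1 - X1) * (Z2 - X2) - (B2 - X2) * (Z1 - X1) ≤ 0)
    (hXV : (X1 - V1) ^ 2 + (X2 - V2) ^ 2 ≤ 1) (hBV : (B1 - V1) ^ 2 + (B2 - V2) ^ 2 ≤ 1) :
    V1 ^ 2 + V2 ^ 2 ≤ 2 * (Z1 * V1 + Z2 * V2) := by
  set D := X1 * B2 - X2 * B1 with hDdef
  set s := Z1 * B2 - Z2 * B1 with hsdef
  set t := X1 * Z2 - X2 * Z1 with htdef
  have hst : D ≤ s + t := by
    rw [hDdef, hsdef, htdef]
    linarith
  have e1 : D * Z1 = s * X1 + t * B1 := by rw [hDdef, hsdef, htdef]; ring
  have e2 : D * Z2 = s * X2 + t * B2 := by rw [hDdef, hsdef, htdef]; ring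
  set c := X1 * B1 + X2 * B2 with hc
  have hcD : c ^ 2 + D ^ 2 = 1 := by
    have : c ^ 2 + D ^ 2 = (X1 ^ 2 + X2 ^ 2) * (B1 ^ 2 + B2 ^ 2) := by rw [hc, hDdef]; ring
    rw [this, hX, hB]; ring
  have hc1 : c < 1 := by nlinarith
  have hn : D ^ 2 * (Z1 ^ 2 + Z2 ^ 2) = s ^ 2 + t ^ 2 + 2 * s * t * c := by
    have : D ^ 2 * (Z1 ^ 2 + Z2 ^ 2) = (D * Z1) ^ 2 + (D * Z2) ^ 2 := by ring
    rw [this, e1, e2]
    have : (s * X1 + t * B1) ^ 2 + (s * X2 + t * B2) ^ 2 =
        s ^ 2 * (X1 ^ 2 + X2 ^ 2) + t ^ 2 * (B1 ^ 2 + B2 ^ 2) + 2 * s * t * c := by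
      rw [hc]; ring
    rw [this, hX, hB]; ring
  have hn2 : s ^ 2 + t ^ 2 + 2 * s * t * c ≤ D ^ 2 := by
    rw [← hn]
    nlinarith [sq_nonneg D]
  have hs0 : 0 ≤ s := by
    by_contra hneg
    push Not at hneg
    have ht : D - s ≤ t := by linarith
    have h1 : 0 < -s * t := mul_pos (by linarith) (by linarith)
    have h2 : D ^ 2 ≤ (t + s) ^ 2 := by nlinarith
    nlinarith [mul_pos h1 (sub_pos.2 hc1)]
  have ht0 : 0 ≤ t := by
    by_contra hneg
    push Not at hneg
    have ht : D - t ≤ s := by linarith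
    have h1 : 0 < -t * s := mul_pos (by linarith) (by linarith)
    have h2 : D ^ 2 ≤ (t + s) ^ 2 := by nlinarith
    nlinarith [mul_pos h1 (sub_pos.2 hc1)]
  have f1 : V1 ^ 2 + V2 ^ 2 ≤ 2 * (X1 * V1 + X2 * V2) := by nlinarith
  have f2 : V1 ^ 2 + V2 ^ 2 ≤ 2 * (B1 * V1 + B2 * V2) := by nlinarith
  have f3 : D * (2 * (Z1 * V1 + Z2 * V2)) =
      s * (2 * (X1 * V1 + X2 * V2)) + t * (2 * (B1 * V1 + B2 * V2)) := by
    have : D * (2 * (Z1 * V1 + Z2 * V2)) = 2 * ((D * Z1) * V1 + (D * Z2) * V2) := by ring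
    rw [this, e1, e2]; ring
  have f4 : D * (V1 ^ 2 + V2 ^ 2) ≤ D * (2 * (Z1 * V1 + Z2 * V2)) := by
    rw [f3]
    have g1 := mul_le_mul_of_nonneg_left f1 hs0
    have g2 := mul_le_mul_of_nonneg_left f2 ht0
    have g3 : D * (V1 ^ 2 + V2 ^ 2) ≤ (s + t) * (V1 ^ 2 + V2 ^ 2) :=
      mul_le_mul_of_nonneg_right hst (by positivity)
    linarith
  exact le_of_mul_le_mul_left f4 hD

/-- a point beyond the chord `xb` of the unit disk around `v` is in every unit disk which contains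
`x` and `b` -/
theorem lens {v x b z w : ℂ} (hx : dist x v = 1) (hb : dist b v = 1)
    (hxb : 0 < crs (x - v) (b - v)) (hz : dist z v ≤ 1) (hs : crs (b - x) (z - x) ≤ 0)
    (hxw : dist x w ≤ 1) (hbw : dist b w ≤ 1) : dist z w ≤ dist z v := by
  have h1 : dist x v ^ 2 = 1 := by rw [hx]; norm_num
  have h2 : dist b v ^ 2 = 1 := by rw [hb]; norm_num
  have h3 : dist z v ^ 2 ≤ 1 := by nlinarith [dist_nonneg (x := z) (y := v)]
  have h4 : dist x w ^ 2 ≤ 1 := by nlinarith [dist_nonneg (x := x) (y := w)]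
  have h5 : dist b w ^ 2 ≤ 1 := by nlinarith [dist_nonneg (x := b) (y := w)]
  rw [dsq] at h1 h2 h3 h4 h5
  rw [crs_eq] at hxb hs
  simp only [Complex.sub_re, Complex.sub_im] at hxb hs
  have h := lens_real (X1 := x.re - v.re) (X2 := x.im - v.im) (B1 := b.re - v.re)
    (B2 := b.im - v.im) (Z1 := z.re - v.re) (Z2 := z.im - v.im) (V1 := w.re - v.re)
    (V2 := w.im - v.im) h1 h2 hxb h3 (by nlinarith) (by nlinarith) (by nlinarith)
  have h6 : dist z w ^ 2 ≤ dist z v ^ 2 := by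
    rw [dsq, dsq]
    nlinarith
  exact (sq_le_sq₀ dist_nonneg dist_nonneg).1 h6

/-- points of the sector between `P` and `Q` seen from the origin -/
theorem sect {P Q v z w : ℂ} (hP : dist P v = 1) (hQ : dist Q v = 1)
    (c : 0 < crs (P - v) (Q - v)) (hz : dist z v < 1) (d : 0 < crs P Q) (e1 : 0 ≤ crs P z)
    (e2 : 0 ≤ crs z Q) (h0 : dist 0 w < 1) (hPw : dist P w ≤ 1) (hQw : dist Q w ≤ 1) :
    dist z w < 1 := by
  by_cases hs : crs (Q - P) (z - P) ≤ 0
  · exact (lens hP hQ c hz.le hs hPw hQw).trans_lt hz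
  · push Not at hs
    set D := crs P Q with hD
    set α := crs z Q with hα
    set β := crs P z with hβ
    have h1 : α + β < D := by
      rw [crs_eq] at hs hα hβ hD
      simp only [Complex.sub_re, Complex.sub_im] at hs
      rw [hα, hβ, hD]
      linarith
    have h2 : (D : ℂ) * (z - w) = (α : ℂ) * (P - w) + (β : ℂ) * (Q - w) +
        ((D - α - β : ℝ) : ℂ) * (0 - w) := by
      rw [crs_eq] at hα hβ hD
      apply Complex.ext
      · simp only [Complex.mul_re, Complex.add_re, Complex.sub_re, Complex.sub_im,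
          Complex.ofReal_re, Complex.ofReal_im, Complex.zero_re, Complex.zero_im]
        rw [hα, hβ, hD]
        ring
      · simp only [Complex.mul_im, Complex.add_im, Complex.sub_re, Complex.sub_im,
          Complex.ofReal_re, Complex.ofReal_im, Complex.zero_re, Complex.zero_im]
        rw [hα, hβ, hD]
        ring
    have h3 : ‖(D : ℂ) * (z - w)‖ ≤ α * dist P w + β * dist Q w + (D - α - β) * dist 0 w := by
      rw [h2]
      refine (norm_add_le _ _).trans (add_le_add ((norm_add_le _ _).trans (add_le_add ?_ ?_)) ?_)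
      · rw [norm_mul, Complex.norm_real, Real.norm_of_nonneg e2, dist_eq_norm]
      · rw [norm_mul, Complex.norm_real, Real.norm_of_nonneg e1, dist_eq_norm]
      · rw [norm_mul, Complex.norm_real, Real.norm_of_nonneg (by linarith), dist_eq_norm]
    rw [norm_mul, Complex.norm_real, Real.norm_of_nonneg d.le, ← dist_eq_norm] at h3
    have h4 : α * dist P w ≤ α * 1 := mul_le_mul_of_nonneg_left hPw e2
    have h5 : β * dist Q w ≤ β * 1 := mul_le_mul_of_nonneg_left hQw e1
    have h6 : (D - α - β) * dist 0 w < (D - α - β) * 1 :=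
      mul_lt_mul_of_pos_left h0 (by linarith)
    have h7 : D * dist z w < D * 1 := by linarith
    exact lt_of_mul_lt_mul_left h7 d.le

theorem crs_e (s t : ℝ) : crs (AX.e s) (AX.e t) = Real.sin (t - s) := by
  rw [crs_eq, we_re55, we_re55, we_im55, we_im55, Real.sin_sub]
  ring

theorem crs_polar (r s φ θ : ℝ) :
    crs ((r : ℂ) * AX.e φ) ((s : ℂ) * AX.e (φ + θ)) = r * s * Real.sin θ := by
  rw [crs_eq]
  simp only [Complex.re_ofReal_mul, Complex.im_ofReal_mul, we_re55, we_im55, Real.cos_add,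
    Real.sin_add]
  have := Real.sin_sq_add_cos_sq φ
  linear_combination r * s * Real.sin θ * this

/-- the geometry at a kink: `z` is strictly inside the r-hull, the kink can be dropped -/
theorem kinkgeo (hGAP : ST_GAP) {p : Fin 5 → ℂ} {g : ℤ → Fin 5} {a b : ℤ → ℝ}
    (h : HD p 4 g a b) (m : ℤ) (hk : a m = b m) (z : ℂ) (o : Fin 5) (h0 : p o = 0)
    (ho : ∀ j, g j ≠ o) (hv : dist z (p (g m) + AX.e (a m)) < 1)
    (hsec : (0 < crs (p (g (m - 1))) (p (g m)) ∧ 0 ≤ crs (p (g (m - 1))) z ∧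
        0 ≤ crs z (p (g m))) ∨
      (0 < crs (p (g m)) (p (g (m + 1))) ∧ 0 ≤ crs (p (g m)) z ∧
        0 ≤ crs z (p (g (m + 1))))) :
    (∀ w ∈ AX.K 1 p, dist z w < 1) ∧
    (∀ w, (∀ j, j ≠ g m → dist w (p j) ≤ 1) → dist w (p (g m)) ≤ 1) := by
  have c1 := h.corner (m - 1)
  have c2 := h.corner m
  rw [sub_add_cancel] at c1
  set v := p (g m) + AX.e (a m) with hvdef
  have hB : p (g m) = v - AX.e (a m) := by rw [hvdef]; ring
  have hX : p (g (m - 1)) = v - AX.e (b (m - 1)) := by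
    rw [← c1]; ring
  have hA : p (g (m + 1)) = v - AX.e (a (m + 1)) := by
    rw [hvdef, hk, c2]; ring
  have g1 := hGAP 5 p 4 g a b h (m - 1) m (by omega) (fun j h1 h2 => by omega)
  have g2 := hGAP 5 p 4 g a b h m (m + 1) (by omega) (fun j h1 h2 => by omega)
  have g3 := hGAP 5 p 4 g a b h (m - 1) (m + 1) (by omega) (fun j h1 h2 => by
    have : j = m := by omega
    rw [this]; exact hk)
  have n1 : g (m - 1) ≠ g m := by
    intro he
    obtain ⟨y, hy⟩ := h.ginj _ _ he
    push_cast at hy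
    omega
  have n2 : g m ≠ g (m + 1) := by
    intro he
    obtain ⟨y, hy⟩ := h.ginj _ _ he
    push_cast at hy
    omega
  have n3 : g (m - 1) ≠ g (m + 1) := by
    intro he
    obtain ⟨y, hy⟩ := h.ginj _ _ he
    push_cast at hy
    omega
  have p1 : 0 < a m - b (m - 1) := by
    rw [← g1.2.1]; exact lg_pos (fun he => n1 (h.inj he))
  have p2 : 0 < a (m + 1) - b m := by
    rw [← g2.2.1]; exact lg_pos (fun he => n2 (h.inj he))
  have dX : dist (p (g (m - 1))) v = 1 := by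
    rw [hX, dist_eq_norm]
    have : v - AX.e (b (m - 1)) - v = -AX.e (b (m - 1)) := by ring
    rw [this, norm_neg, we_norm55]
  have dB : dist (p (g m)) v = 1 := by
    rw [hB, dist_eq_norm]
    have : v - AX.e (a m) - v = -AX.e (a m) := by ring
    rw [this, norm_neg, we_norm55]
  have dA : dist (p (g (m + 1))) v = 1 := by
    rw [hA, dist_eq_norm]
    have : v - AX.e (a (m + 1)) - v = -AX.e (a (m + 1)) := by ring
    rw [this, norm_neg, we_norm55]
  have crsv : ∀ s t : ℝ, crs (v - AX.e s - v) (v - AX.e t - v) = Real.sin (t - s) := by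
    intro s t
    rw [← crs_e, crs_eq, crs_eq]
    simp only [Complex.sub_re, Complex.sub_im]
    ring
  have q1 : 0 < crs (p (g (m - 1)) - v) (p (g m) - v) := by
    rw [hX, hB, crsv]
    exact Real.sin_pos_of_pos_of_lt_pi p1 g1.1
  have q2 : 0 < crs (p (g m) - v) (p (g (m + 1)) - v) := by
    rw [hA, hB, crsv, hk]
    exact Real.sin_pos_of_pos_of_lt_pi p2 g2.1
  have q3 : 0 < crs (p (g (m - 1)) - v) (p (g (m + 1)) - v) := by
    rw [hX, hA, crsv]
    exact Real.sin_pos_of_pos_of_lt_pi (by rw [hk] at p1; linarith) g3.1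
  have hT : AX.T 1 p o = ∅ := by
    rw [Set.eq_empty_iff_forall_notMem]
    intro θ hθ
    obtain ⟨k, hk⟩ := h.cov o ⟨θ, hθ⟩
    exact ho k hk
  obtain ⟨δ, hδ, hδ2⟩ := H35.slack_lt (h.int.mono interior_subset) hT
  constructor
  · intro w hw
    have hw0 : dist 0 w < 1 := by
      have := hδ2 w hw
      rw [h0, dist_comm] at this
      linarith
    have hwj : ∀ j, dist (p j) w ≤ 1 := fun j => by
      rw [dist_comm]; exact (H35.mem_K p w).1 hw j
    rcases hsec with ⟨s1, s2, s3⟩ | ⟨s1, s2, s3⟩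
    · exact sect dX dB q1 hv s1 s2 s3 hw0 (hwj _) (hwj _)
    · exact sect dB dA q2 hv s1 s2 s3 hw0 (hwj _) (hwj _)
  · intro w hw
    have r1 := hw _ n1
    have r2 := hw _ n2.symm
    rw [dist_comm] at r1 r2
    rw [dist_comm, ← dB]
    refine lens dX dA q3 dB.le ?_ r1 r2
    have hs : crs (p (g (m + 1)) - p (g (m - 1))) (p (g m) - p (g (m - 1))) =
        Real.sin (a (m + 1) - b (m - 1)) - Real.sin (a m - b (m - 1)) -
          Real.sin (a (m + 1) - a m) := by
      rw [hX, hA, hB, ← crs_e, ← crs_e, ← crs_e]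
      simp only [crs_eq, Complex.sub_re, Complex.sub_im]
      ring
    rw [hs]
    have e3 : Real.sin (a (m + 1) - b (m - 1)) =
        Real.sin (a m - b (m - 1)) * Real.cos (a (m + 1) - a m) +
        Real.cos (a m - b (m - 1)) * Real.sin (a (m + 1) - a m) := by
      rw [← Real.sin_add]; congr 1; ring
    have e4 : 0 ≤ Real.sin (a m - b (m - 1)) :=
      Real.sin_nonneg_of_nonneg_of_le_pi p1.le g1.1.le
    have e5 : 0 ≤ Real.sin (a (m + 1) - a m) := by
      rw [hk]; exact Real.sin_nonneg_of_nonneg_of_le_pi p2.le g2.1.le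
    have e6 := Real.cos_le_one (a (m + 1) - a m)
    have e7 := Real.cos_le_one (a m - b (m - 1))
    rw [e3]
    nlinarith

/-- replacing a kink by a point strictly inside leaves at most three touching circles -/
theorem gen (hHD : ST_HD) (hT : ST_THREE) {p q : Fin 5 → ℂ} {gp : ℤ → Fin 5} {ap bp : ℤ → ℝ}
    {gq : ℤ → Fin 5} {aq bq : ℤ → ℝ} (hM : MaxPair p q) (hp : HD p 4 gp ap bp)
    (hq : HD q 5 gq aq bq) (hf : ∀ k, aq k < bq k) (o k : Fin 5) (ho : ∀ j, gp j ≠ o)
    (hk : k ≠ o) (z : ℂ) (hz1 : ∀ j, j ≠ k → dist (q k) (q j) ≤ dist z (p j))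
    (hz2 : ∀ w ∈ AX.K 1 p, dist z w < 1)
    (hdrop : ∀ w, (∀ j, j ≠ k → dist w (p j) ≤ 1) → dist w (p k) ≤ 1) : False := by
  classical
  set p' := Function.update p k z with hp'
  have hne : ∀ j, j ≠ k → p' j = p j := fun j hj => by rw [hp', Function.update_of_ne hj]
  have heq : p' k = z := by rw [hp', Function.update_self]
  have hK : AX.K 1 p' = AX.K 1 p := by
    ext w
    rw [H35.mem_K, H35.mem_K]
    constructor
    · intro hw i
      by_cases hi : i = k
      · rw [hi]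
        refine hdrop w fun j hj => ?_
        have := hw j
        rwa [hne j hj] at this
      · have := hw i
        rwa [hne i hi] at this
    · intro hw i
      by_cases hi : i = k
      · rw [hi, heq, dist_comm]
        exact (hz2 w ((H35.mem_K p w).2 hw)).le
      · rw [hne i hi]
        exact hw i
  have hctr : Ctr p' q := by
    intro i j
    by_cases hi : i = k
    · by_cases hj : j = k
      · rw [hi, hj, dist_self, dist_self]
      · rw [hi, heq, hne j hj]
        exact hz1 j hj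
    · by_cases hj : j = k
      · rw [hj, heq, hne i hi, dist_comm, dist_comm (p i)]
        exact hz1 i hi
      · rw [hne i hi, hne j hj]
        exact hM.ctr i j
  have hper : per p' = per p := by unfold per; rw [hK]
  have hM' : MaxPair p' q := by
    refine ⟨hctr, ?_, ?_⟩
    · rw [hper]; exact hM.pos
    · intro p1 q1 h1
      rw [hper]; exact hM.max p1 q1 h1
  have hinj : Function.Injective p' := by
    intro i j hij
    have h1 := hctr i j
    rw [hij, dist_self] at h1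
    exact hq.inj (dist_le_zero.1 h1)
  have hint : (interior (AX.K 1 p')).Nonempty := by rw [hK]; exact hp.int
  obtain ⟨M, g, a, b, h⟩ := hHD 5 p' (by norm_num) hinj hint
  have hgo : ∀ j, g j ≠ o := by
    intro j hj
    have h1 := H35.HD_T h j
    rw [hj] at h1
    obtain ⟨θ, hθ⟩ := h1
    rw [H35.mem_T, hK, hne o hk.symm] at hθ
    obtain ⟨l, hl⟩ := hp.cov o ⟨θ, (H35.mem_T p o θ).2 hθ⟩
    exact ho l hl
  have hgk : ∀ j, g j ≠ k := by
    intro j hj
    have h1 := H35.HD_T h j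
    rw [hj] at h1
    obtain ⟨θ, hθ⟩ := h1
    rw [H35.mem_T, hK, heq] at hθ
    have h2 := hz2 _ hθ
    rw [dist_eq_norm] at h2
    have h3 : z - (z + AX.e θ) = -AX.e θ := by ring
    rw [h3, norm_neg, we_norm55] at h2
    exact lt_irrefl _ h2
  have hM3 : M ≤ 3 := by
    have h1 : (Finset.range M).card ≤ ((Finset.univ.erase o).erase k : Finset (Fin 5)).card := by
      refine Finset.card_le_card_of_injOn (fun m : ℕ => g (m : ℤ)) ?_ ?_
      · intro m _
        have e1 := hgk (m : ℤ)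
        have e2 := hgo (m : ℤ)
        simp [e1, e2]
      · intro m hm l hl he
        exact h.inj_range (Finset.mem_range.1 hm) (Finset.mem_range.1 hl) he
    rw [Finset.card_range, Finset.card_erase_of_mem (Finset.mem_erase.2 ⟨hk, Finset.mem_univ _⟩),
      Finset.card_erase_of_mem (Finset.mem_univ _), Finset.card_univ, Fintype.card_fin] at h1
    omega
  exact hT 5 p' q M g a b gq aq bq hM' h hq hf hM3

/-! ### trigonometry -/

theorem cos_law {r s θ : ℝ} (hs : 0 < s) (h0 : 0 < θ) (h1 : θ < Real.pi) :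
    s ^ 2 = r ^ 2 + ch r s θ ^ 2 - 2 * r * ch r s θ * Real.cos (un r s θ) := by
  obtain ⟨_, _, e1, e2⟩ := tri_un (r := r) hs h0 h1
  have e3 := Real.sin_sq_add_cos_sq (un r s θ)
  have e4 := Real.sin_sq_add_cos_sq θ
  have e5 : s ^ 2 = (s * Real.cos θ) ^ 2 + (s * Real.sin θ) ^ 2 := by
    linear_combination (-s ^ 2) * e4
  have e6 : s * Real.cos θ = r - ch r s θ * Real.cos (un r s θ) := by linarith
  rw [e5, e6, e2]
  linear_combination ch r s θ ^ 2 * e3

/-- the point `z` is in the unit disk around the corner -/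
theorem step1 {r s S B t : ℝ} (hr : 0 < r) (hs : 0 < s) (hsS : s < S) (hB0 : 0 < B)
    (hB : B < Real.pi) (ht0 : 0 < t) (ht : t < Real.pi) (hch : ch r s B = ch r S t)
    (hc2 : ch r s B < 2) (hr2 : r < 2) (hs2 : s < 2) (hRC : hd r s B < h0 r + h0 s)
    (hU : UU r S t + h0 r < Real.pi) : ch r s B < 2 * Real.sin (UU r S t - un r s B) := by
  obtain ⟨u1, u2, -, -⟩ := tri_un (r := r) hs hB0 hB
  obtain ⟨v1, v2, -, -⟩ := tri_un (r := r) (hs.trans hsS) ht0 ht
  have L1 := cos_law (r := r) hs hB0 hB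
  have L2 := cos_law (r := r) (hs.trans hsS) ht0 ht
  have hc0 : 0 < ch r s B := tri_ch_pos hs hB0 hB
  have hhd : hd r S t = hd r s B := by unfold hd; rw [hch]
  rw [← hch] at L2
  set l := ch r s B with hl
  set δ := hd r s B with hδ
  have hδs : l = 2 * Real.sin δ := by
    rw [hδ]
    unfold hd
    rw [Real.sin_arcsin (by rw [← hl]; linarith) (by rw [← hl]; linarith), ← hl]
    ring
  have hδ0 : 0 < δ := by
    rw [hδ]; unfold hd; rw [← hl]
    exact Real.arcsin_pos.2 (by linarith)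
  have hδ2 : δ < Real.pi / 2 := by
    rw [hδ]; unfold hd; rw [← hl]
    exact Real.arcsin_lt_pi_div_two.2 (by linarith)
  have hh0 : 0 < h0 r := Real.arcsin_pos.2 (by linarith)
  have hh2 : h0 r < Real.pi / 2 := Real.arcsin_lt_pi_div_two.2 (by linarith)
  have hhs : r = 2 * Real.sin (h0 r) := by
    unfold h0
    rw [Real.sin_arcsin (by linarith) (by linarith)]
    ring
  have hk0 : 0 < h0 s := Real.arcsin_pos.2 (by linarith)
  have hks : s = 2 * Real.sin (h0 s) := by
    unfold h0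
    rw [Real.sin_arcsin (by linarith) (by linarith)]
    ring
  -- the angle at the pivot decreases
  have hcos : Real.cos (un r S t) < Real.cos (un r s B) := by
    have h1 : s ^ 2 < S ^ 2 := by nlinarith
    have h2 : 0 < r * l := mul_pos hr hc0
    by_contra hcon
    push Not at hcon
    have h3 := mul_le_mul_of_nonneg_left hcon h2.le
    nlinarith
  have hun : un r s B < un r S t := by
    by_contra hcon
    push Not at hcon
    have := Real.cos_le_cos_of_nonneg_of_le_pi v1.le u2.le hcon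
    linarith
  have hUd : UU r S t = un r S t + δ := by unfold UU; rw [hhd]
  -- the hub is not in the lens
  have hlens : δ - un r s B < h0 r := by
    by_contra hcon
    push Not at hcon
    have h1 : un r s B ≤ δ - h0 r := by linarith
    have h2 : Real.cos (δ - h0 r) ≤ Real.cos (un r s B) :=
      Real.cos_le_cos_of_nonneg_of_le_pi u1.le (by linarith) h1
    have h3 : s ^ 2 ≤ (2 * Real.sin (δ - h0 r)) ^ 2 := by
      have e1 : (2 * Real.sin (δ - h0 r)) ^ 2 =
          r ^ 2 + l ^ 2 - 2 * r * l * Real.cos (δ - h0 r) := by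
        rw [hδs, Real.sin_sub, Real.cos_sub]
        have f1 := Real.sin_sq_add_cos_sq δ
        have f2 := Real.sin_sq_add_cos_sq (h0 r)
        have f3 : r ^ 2 + (2 * Real.sin δ) ^ 2 - 2 * r * (2 * Real.sin δ) *
            (Real.cos δ * Real.cos (h0 r) + Real.sin δ * Real.sin (h0 r)) =
            (2 * Real.sin (h0 r)) ^ 2 + (2 * Real.sin δ) ^ 2 -
            2 * (2 * Real.sin (h0 r)) * (2 * Real.sin δ) *
            (Real.cos δ * Real.cos (h0 r) + Real.sin δ * Real.sin (h0 r)) := by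
          rw [← hhs]
        rw [f3]
        linear_combination (4 * Real.sin (h0 r) ^ 2) * f1 + (4 * Real.sin δ ^ 2) * f2
      rw [e1, L1]
      have h4 : 0 ≤ 2 * r * l := by positivity
      have h5 := mul_le_mul_of_nonneg_left h2 h4
      linarith
    have h4 : 0 ≤ Real.sin (δ - h0 r) :=
      Real.sin_nonneg_of_nonneg_of_le_pi (by linarith) (by linarith)
    have h5 : s ≤ 2 * Real.sin (δ - h0 r) := (sq_le_sq₀ hs.le (by linarith)).1 h3
    have h6 : h0 s ≤ δ - h0 r :=
      (Real.arcsin_le_iff_le_sin' ⟨by linarith, by linarith⟩).2 (by linarith)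
    linarith
  have g1 : δ < UU r S t - un r s B := by rw [hUd]; linarith
  have g2 : UU r S t - un r s B < Real.pi - δ := by linarith
  rw [hδs]
  have g3 : Real.sin δ < Real.sin (UU r S t - un r s B) := by
    by_cases hc : UU r S t - un r s B ≤ Real.pi / 2
    · exact Real.sin_lt_sin_of_lt_of_le_pi_div_two (by linarith) hc g1
    · push Not at hc
      rw [← Real.sin_pi_sub (UU r S t - un r s B)]
      exact Real.sin_lt_sin_of_lt_of_le_pi_div_two (by linarith) (by linarith) (by linarith)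
  linarith

theorem dpol (r s φ θ : ℝ) :
    dist ((r : ℂ) * AX.e φ) ((s : ℂ) * AX.e (φ + θ)) = ch r s θ := by
  have h : dist ((r : ℂ) * AX.e φ) ((s : ℂ) * AX.e (φ + θ)) ^ 2 = ch r s θ ^ 2 := by
    rw [dsq, ch_sq]
    simp only [Complex.re_ofReal_mul, Complex.im_ofReal_mul, we_re55, we_im55, Real.cos_add,
      Real.sin_add]
    have h1 := Real.sin_sq_add_cos_sq φ
    have h2 := Real.sin_sq_add_cos_sq θ
    linear_combination (r ^ 2 + s ^ 2 - 2 * r * s * Real.cos θ) * h1 +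
      s ^ 2 * (Real.sin φ ^ 2 + Real.cos φ ^ 2) * h2
  exact (sq_eq_sq₀ dist_nonneg (Real.sqrt_nonneg _)).1 h

theorem crs_polar' (r s x y θ : ℝ) (h : y = x + θ) :
    crs ((r : ℂ) * AX.e x) ((s : ℂ) * AX.e y) = r * s * Real.sin θ := by
  rw [h, crs_polar]

theorem dpol' (r s x y θ : ℝ) (h : y = x + θ) :
    dist ((r : ℂ) * AX.e x) ((s : ℂ) * AX.e y) = ch r s θ := by
  rw [h, dpol]

theorem ch_mono {r s θ θ' : ℝ} (hr : 0 < r) (hs : 0 < s) (h : Real.cos θ' ≤ Real.cos θ) :
    ch r s θ ≤ ch r s θ' := by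
  unfold ch
  apply Real.sqrt_le_sqrt
  have := mul_le_mul_of_nonneg_left h (by positivity : 0 ≤ 2 * r * s)
  linarith

theorem cos_far {x y : ℝ} (hx : 0 ≤ x) (h1 : x ≤ y) (h2 : y ≤ 2 * Real.pi - x) :
    Real.cos y ≤ Real.cos x := by
  have h := Real.cos_sub_cos y x
  have h3 : 0 ≤ Real.sin ((y + x) / 2) :=
    Real.sin_nonneg_of_nonneg_of_le_pi (by linarith) (by linarith)
  have h4 : 0 ≤ Real.sin ((y - x) / 2) :=
    Real.sin_nonneg_of_nonneg_of_le_pi (by linarith) (by linarith)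
  nlinarith [mul_nonneg h3 h4]

/-- a larger distance means a larger angle -/
theorem ang_le {r s x y : ℝ} (hr : 0 < r) (hs : 0 < s) (hx : 0 ≤ x) (hx2 : x ≤ Real.pi)
    (hy : 0 ≤ y) (hy2 : y ≤ Real.pi) (h : ch r s x ≤ ch r s y) : x ≤ y := by
  by_contra hcon
  push Not at hcon
  have h1 : Real.cos x < Real.cos y := Real.cos_lt_cos_of_nonneg_of_le_pi hy hx2 hcon
  have h2 : ch r s x ^ 2 ≤ ch r s y ^ 2 := by
    have h3 : 0 ≤ ch r s x := Real.sqrt_nonneg _
    nlinarith
  rw [ch_sq, ch_sq] at h2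
  have := mul_lt_mul_of_pos_left h1 (by positivity : 0 < 2 * r * s)
  linarith

theorem e_32 (x U : ℝ) : (AX.e (x + 3 * Real.pi / 2 - U)).re = Real.sin (x - U) ∧
    (AX.e (x + 3 * Real.pi / 2 - U)).im = -Real.cos (x - U) := by
  have h : x + 3 * Real.pi / 2 - U = (x - U + Real.pi / 2) + Real.pi := by ring
  rw [we_re55, we_im55, h]
  constructor
  · rw [Real.cos_add_pi, Real.cos_add_pi_div_two, neg_neg]
  · rw [Real.sin_add_pi, Real.sin_add_pi_div_two]

theorem e_12 (x U : ℝ) : (AX.e (x + Real.pi / 2 + U)).re = -Real.sin (x + U) ∧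
    (AX.e (x + Real.pi / 2 + U)).im = Real.cos (x + U) := by
  have h : x + Real.pi / 2 + U = (x + U) + Real.pi / 2 := by ring
  rw [we_re55, we_im55, h]
  constructor
  · rw [Real.cos_add_pi_div_two]
  · rw [Real.sin_add_pi_div_two]

theorem zv_aux {r s B U : ℝ} (hs : 0 < s) (hB0 : 0 < B) (hB : B < Real.pi) :
    (s * Real.cos B - r + Real.sin U) ^ 2 + (s * Real.sin B + Real.cos U) ^ 2 =
      ch r s B ^ 2 + 1 - 2 * ch r s B * Real.sin (U - un r s B) := by
  obtain ⟨_, _, e1, e2⟩ := tri_un (r := r) hs hB0 hB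
  have e3 : s * Real.cos B - r = -(ch r s B * Real.cos (un r s B)) := by linarith
  rw [e3, e2, Real.sin_sub]
  have h1 := Real.sin_sq_add_cos_sq (un r s B)
  have h2 := Real.sin_sq_add_cos_sq U
  linear_combination ch r s B ^ 2 * h1 + h2

theorem zv1 {r s B U φ : ℝ} (hs : 0 < s) (hB0 : 0 < B) (hB : B < Real.pi) (hc : 0 < ch r s B)
    (h : ch r s B < 2 * Real.sin (U - un r s B)) :
    dist ((s : ℂ) * AX.e (φ + B)) ((r : ℂ) * AX.e φ + AX.e (φ + 3 * Real.pi / 2 - U)) < 1 := by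
  have h1 : dist ((s : ℂ) * AX.e (φ + B))
      ((r : ℂ) * AX.e φ + AX.e (φ + 3 * Real.pi / 2 - U)) ^ 2 =
      ch r s B ^ 2 + 1 - 2 * ch r s B * Real.sin (U - un r s B) := by
    rw [← zv_aux hs hB0 hB, dsq]
    simp only [Complex.add_re, Complex.add_im, Complex.re_ofReal_mul, Complex.im_ofReal_mul,
      (e_32 φ U).1, (e_32 φ U).2]
    simp only [we_re55, we_im55, Real.cos_add, Real.sin_add, Real.cos_sub, Real.sin_sub]
    have h1 := Real.sin_sq_add_cos_sq φ
    linear_combination ((s * Real.cos B - r + Real.sin U) ^ 2 +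
      (s * Real.sin B + Real.cos U) ^ 2) * h1
  have h2 : dist ((s : ℂ) * AX.e (φ + B))
      ((r : ℂ) * AX.e φ + AX.e (φ + 3 * Real.pi / 2 - U)) ^ 2 < 1 := by
    rw [h1]
    have := mul_lt_mul_of_pos_left h hc
    linarith
  nlinarith [dist_nonneg (x := (s : ℂ) * AX.e (φ + B))
    (y := (r : ℂ) * AX.e φ + AX.e (φ + 3 * Real.pi / 2 - U))]

theorem zv2 {r s B U φ : ℝ} (hs : 0 < s) (hB0 : 0 < B) (hB : B < Real.pi) (hc : 0 < ch r s B)
    (h : ch r s B < 2 * Real.sin (U - un r s B)) :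
    dist ((s : ℂ) * AX.e (φ - B)) ((r : ℂ) * AX.e φ + AX.e (φ + Real.pi / 2 + U)) < 1 := by
  have h1 : dist ((s : ℂ) * AX.e (φ - B))
      ((r : ℂ) * AX.e φ + AX.e (φ + Real.pi / 2 + U)) ^ 2 =
      ch r s B ^ 2 + 1 - 2 * ch r s B * Real.sin (U - un r s B) := by
    rw [← zv_aux hs hB0 hB, dsq]
    simp only [Complex.add_re, Complex.add_im, Complex.re_ofReal_mul, Complex.im_ofReal_mul,
      (e_12 φ U).1, (e_12 φ U).2]
    simp only [we_re55, we_im55, Real.cos_add, Real.sin_add, Real.cos_sub, Real.sin_sub]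
    have h1 := Real.sin_sq_add_cos_sq φ
    linear_combination ((s * Real.cos B - r + Real.sin U) ^ 2 +
      (s * Real.sin B + Real.cos U) ^ 2) * h1
  have h2 : dist ((s : ℂ) * AX.e (φ - B))
      ((r : ℂ) * AX.e φ + AX.e (φ + Real.pi / 2 + U)) ^ 2 < 1 := by
    rw [h1]
    have := mul_lt_mul_of_pos_left h hc
    linarith
  nlinarith [dist_nonneg (x := (s : ℂ) * AX.e (φ - B))
    (y := (r : ℂ) * AX.e φ + AX.e (φ + Real.pi / 2 + U))]

theorem e_eq_zero {s t : ℝ} (h1 : s ≤ t) (h2 : t < s + Real.pi) (h : AX.e s = AX.e t) :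
    s = t := by
  have h3 : Real.cos (t - s) = 1 := by
    have e1 := congr_arg Complex.re h
    have e2 := congr_arg Complex.im h
    rw [we_re55, we_re55] at e1
    rw [we_im55, we_im55] at e2
    rw [Real.cos_sub, ← e1, ← e2]
    have := Real.sin_sq_add_cos_sq s
    nlinarith
  have h4 := (Real.cos_eq_one_iff_of_lt_of_lt (by linarith [Real.pi_pos])
    (by linarith [Real.pi_pos])).1 h3
  linarith

end H38

open H38

theorem GEND (hHD : ST_HD) (hGAP : ST_GAP) : ST_GEND := by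
  intro hT p q ap bp aq bq ra rx ry rb Ra Rx Ry Rb φ b1 b2 b3 ψ t1 t2 t3 t4 hM hp hq hf
    q0 q1 q2 q3 q4 p0 p1 p3 p2 p4 WQ WP
  have g2 : gC 2 = 2 := by norm_num [gC]
  have g3 : gC 3 = 4 := by norm_num [gC]
  have g4 : gC 4 = 1 := by norm_num [gC]
  have g5 : gC 5 = 3 := by norm_num [gC]
  have ho : ∀ j, gC j ≠ 0 := by
    intro j
    unfold gC
    split_ifs <;> decide
  have hpi := Real.pi_pos
  have hts := WP.ts
  have hTS := st_TSYM
  -- consecutive arcs
  have arc : ∀ (m : ℤ), bp m < ap (m + 1) ∧ ap (m + 1) < bp m + Real.pi := by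
    intro m
    have g := hGAP 5 p 4 gC ap bp hp m (m + 1) (by omega) (fun j h1 h2 => by omega)
    have n : gC m ≠ gC (m + 1) := by
      intro he
      obtain ⟨y, hy⟩ := hp.ginj _ _ he
      push_cast at hy
      omega
    have l : 0 < ap (m + 1) - bp m := by
      rw [← g.2.1]; exact lg_pos (fun he => n (hp.inj he))
    exact ⟨by linarith, by linarith [g.1]⟩
  have cor : ∀ (m : ℤ), p (gC m) + AX.e (bp m) - AX.e (bp m) = p (gC m) ∧
      p (gC m) + AX.e (bp m) - AX.e (ap (m + 1)) = p (gC (m + 1)) := by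
    intro m
    refine ⟨by ring, ?_⟩
    rw [hp.corner m]; ring
  have e2pi : ∀ x : ℝ, AX.e (x + 2 * Real.pi) = AX.e x := we_two55
  have hctr13 := hM.ctr 1 3
  have hctr24 := hM.ctr 2 4
  have dq13 : dist (q 1) (q 3) = ch ra ry (b1 + b2) := by
    rw [q1, q3, add_assoc, dpol]
  have dq24 : dist (q 2) (q 4) = ch rx rb (b2 + b3) := by
    rw [q2, q4, show φ + b1 + b2 + b3 = (φ + b1) + (b2 + b3) by ring, dpol]
  have dq14 : dist (q 1) (q 4) = ch ra rb (b1 + b2 + b3) := by
    rw [q1, q4, show φ + b1 + b2 + b3 = φ + (b1 + b2 + b3) by ring, dpol]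
  have dq12 : dist (q 1) (q 2) = ch ra rx b1 := by
    rw [q1, q2, dpol]
  have dq34 : dist (q 3) (q 4) = ch ry rb b3 := by
    rw [q3, q4, dpol]
  have dp13 : dist (p 1) (p 3) = ch Ra Ry t1 := by
    rw [p1, p3, dpol]
  have dp24 : dist (p 2) (p 4) = ch Rx Rb t3 := by
    rw [p2, p4, dpol]
  have n0 : ∀ (r x : ℝ), 0 < r → dist ((r : ℂ) * AX.e x) 0 = r := by
    intro r x hr
    rw [dist_zero_right, norm_mul, we_norm55, mul_one, Complex.norm_real,
      Real.norm_of_nonneg hr.le]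
  rw [dq13, dp13] at hctr13
  rw [dq24, dp24] at hctr24
  have A0 := WQ.b10
  have A1 := WQ.b20
  have A2 := WQ.b30
  have A3 := WQ.bs
  have W4 := WP.t10
  have W5 := WP.t20
  have W6 := WP.t30
  have W7 := WP.t40
  have W8 := WP.t1p
  have W9 := WP.t2p
  have W10 := WP.t3p
  have W11 := WP.t4p
  have pe : p 1 = (Ra : ℂ) * AX.e (ψ + t1 + t2 + t3 + t4) := by
    rw [show ψ + t1 + t2 + t3 + t4 = ψ + 2 * Real.pi by linarith, e2pi, p1]
  have w34 := st_WARC (p (gC 3) + AX.e (bp 3)) (bp 3) (ap 4) Rb Ra (ψ + t1 + t2 + t3) t4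
    (arc 3).1 (arc 3).2 WP.Rb0 WP.Ra0 W7 W11 (by rw [(cor 3).1, g3, p4])
    (by
      have := (cor 3).2
      rw [show (3 : ℤ) + 1 = 4 by norm_num] at this
      rw [this, g4, pe])
  constructor
  · -- kink a
    intro hsl eb ey ex cay cab hkink
    by_contra hcon
    push Not at hcon
    have w45 := st_WARC (p (gC 4) + AX.e (bp 4)) (bp 4) (ap 5) Ra Ry ψ t1
      (arc 4).1 (arc 4).2 WP.Ra0 WP.Ry0 W4 W8 (by rw [(cor 4).1, g4, p1])
      (by
        have := (cor 4).2
        rw [show (4 : ℤ) + 1 = 5 by norm_num] at this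
        rw [this, g5, p3])
    have hk : ap 4 = bp 4 := by
      refine e_eq_zero (hp.le 4) (hp.ltpi 4) ?_
      rw [w34.2.1, w45.1, show ψ + t1 + t2 + t3 + t4 + Real.pi / 2 + UU Ra Rb t4 =
        (ψ + 3 * Real.pi / 2 - UU Ra Ry t1) + 2 * Real.pi by linarith, e2pi]
    subst eb ey ex
    have hB : b2 + b3 ≤ t3 := ang_le WP.Rx0 WP.Rb0 (by linarith) (by linarith) W6.le W10.le hctr24
    set z : ℂ := (ra : ℂ) * AX.e (ψ + t1 - (b1 + b2)) with hz
    have hch : ch Ry ra (b1 + b2) = ch Ry Ra t1 := by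
      rw [(hTS Ry ra _).1, (hTS Ry Ra _).1, cay]
    have hc0 : 0 < ch Ry ra (b1 + b2) := tri_ch_pos WQ.ra0 (by linarith) (by linarith)
    have hs1 := step1 (r := Ry) (s := ra) (S := Ra) (B := b1 + b2) (t := t1) WP.Ry0 WQ.ra0 hsl
      (by linarith) (by linarith) W4 W8 hch (by rw [(hTS Ry ra _).1]; exact WQ.cay2) WQ.ry2
      WQ.ra2 (by rw [(hTS Ry ra _).2.1]; linarith [WQ.q0ay.2.2.1]) (by linarith [WP.ey, WP.hyx])
    have hv : dist z (p (gC 4) + AX.e (ap 4)) < 1 := by
      have hc := hp.corner 4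
      rw [show (4 : ℤ) + 1 = 5 by norm_num] at hc
      rw [hk, hc, g5, w45.2.1, p3]
      exact zv2 WQ.ra0 (by linarith) (by linarith) hc0 hs1
    have hsec : (0 < crs (p (gC (4 - 1))) (p (gC 4)) ∧ 0 ≤ crs (p (gC (4 - 1))) z ∧
        0 ≤ crs z (p (gC 4))) ∨
      (0 < crs (p (gC 4)) (p (gC (4 + 1))) ∧ 0 ≤ crs (p (gC 4)) z ∧
        0 ≤ crs z (p (gC (4 + 1)))) := by
      rw [show (4 : ℤ) - 1 = 3 by norm_num, show (4 : ℤ) + 1 = 5 by norm_num, g3, g4, g5]
      by_cases hc : b1 + b2 ≤ t1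
      · right
        refine ⟨?_, ?_, ?_⟩
        · rw [p1, p3, crs_polar]
          exact mul_pos (mul_pos WP.Ra0 WP.Ry0) (Real.sin_pos_of_pos_of_lt_pi W4 W8)
        · rw [p1, hz, crs_polar' _ _ _ _ (t1 - (b1 + b2)) (by ring)]
          exact mul_nonneg (mul_pos WP.Ra0 WQ.ra0).le
            (Real.sin_nonneg_of_nonneg_of_le_pi (by linarith) (by linarith))
        · rw [p3, hz, crs_polar' _ _ _ _ (b1 + b2) (by ring)]
          exact mul_nonneg (mul_pos WQ.ra0 WP.Ry0).le
            (Real.sin_nonneg_of_nonneg_of_le_pi (by linarith) (by linarith))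
      · push Not at hc
        left
        refine ⟨?_, ?_, ?_⟩
        · rw [pe, p4, crs_polar]
          exact mul_pos (mul_pos WP.Rb0 WP.Ra0) (Real.sin_pos_of_pos_of_lt_pi W7 W11)
        · rw [p4, hz, ← e2pi (ψ + t1 - (b1 + b2)),
            crs_polar' _ _ _ _ (t1 + t4 - (b1 + b2)) (by linarith)]
          exact mul_nonneg (mul_pos WP.Rb0 WQ.ra0).le
            (Real.sin_nonneg_of_nonneg_of_le_pi (by linarith) (by linarith))
        · rw [p1, hz, crs_polar' _ _ _ _ ((b1 + b2) - t1) (by ring)]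
          exact mul_nonneg (mul_pos WQ.ra0 WP.Ra0).le
            (Real.sin_nonneg_of_nonneg_of_le_pi (by linarith) (by linarith))
    obtain ⟨G1, G2⟩ := kinkgeo hGAP hp 4 hk z 0 p0 ho hv hsec
    rw [g4] at G2
    refine gen hHD hT hM hp hq hf 0 1 ho (by decide) z ?_ G1 G2
    intro j hj
    fin_cases j
    · change dist (q 1) (q 0) ≤ dist z (p 0)
      rw [q0, p0, q1, n0 _ _ WQ.ra0, hz, n0 _ _ WQ.ra0]
    · exact absurd rfl hj
    · change dist (q 1) (q 2) ≤ dist z (p 2)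
      rw [dq12, p2, hz, dpol' _ _ _ _ (b1 + b2 + t2) (by ring)]
      exact ch_mono WQ.ra0 WP.Rx0 (cos_far A0.le (by linarith) (by linarith))
    · change dist (q 1) (q 3) ≤ dist z (p 3)
      rw [dq13, p3, hz, dpol' _ _ _ _ (b1 + b2) (by ring)]
    · change dist (q 1) (q 4) ≤ dist z (p 4)
      rw [dq14, p4, hz, dpol' _ _ _ _ (b1 + b2 + t2 + t3) (by ring)]
      exact ch_mono WQ.ra0 WP.Rb0 (cos_far (by linarith) (by linarith) (by linarith))
  · -- kink b
    intro hsl ea ex ey cxb cab hkink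
    by_contra hcon
    push Not at hcon
    have w23 := st_WARC (p (gC 2) + AX.e (bp 2)) (bp 2) (ap 3) Rx Rb (ψ + t1 + t2) t3
      (arc 2).1 (arc 2).2 WP.Rx0 WP.Rb0 W6 W10 (by rw [(cor 2).1, g2, p2])
      (by
        have := (cor 2).2
        rw [show (2 : ℤ) + 1 = 3 by norm_num] at this
        rw [this, g3, p4])
    have hk : ap 3 = bp 3 := by
      refine e_eq_zero (hp.le 3) (hp.ltpi 3) ?_
      rw [w23.2.1, w34.1]
      congr 1
      linarith
    subst ea ex ey
    have hA : b1 + b2 ≤ t1 := ang_le WP.Ra0 WP.Ry0 (by linarith) (by linarith) W4.le W8.le hctr13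
    set z : ℂ := (rb : ℂ) * AX.e (ψ + t1 + t2 + (b2 + b3)) with hz
    have hc0 : 0 < ch Rx rb (b2 + b3) := tri_ch_pos WQ.rb0 (by linarith) (by linarith)
    have hs1 := step1 (r := Rx) (s := rb) (S := Rb) (B := b2 + b3) (t := t3) WP.Rx0 WQ.rb0 hsl
      (by linarith) (by linarith) W6 W10 cxb WQ.cxb2 WQ.rx2
      WQ.rb2 (by linarith [WQ.q0xb.2.2.1]) (by linarith [WP.ex, WP.hxy])
    have hv : dist z (p (gC 3) + AX.e (ap 3)) < 1 := by
      have hc := hp.corner 2
      rw [show (2 : ℤ) + 1 = 3 by norm_num] at hc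
      rw [← hc, g2, w23.1, p2]
      exact zv1 WQ.rb0 (by linarith) (by linarith) hc0 hs1
    have hsec : (0 < crs (p (gC (3 - 1))) (p (gC 3)) ∧ 0 ≤ crs (p (gC (3 - 1))) z ∧
        0 ≤ crs z (p (gC 3))) ∨
      (0 < crs (p (gC 3)) (p (gC (3 + 1))) ∧ 0 ≤ crs (p (gC 3)) z ∧
        0 ≤ crs z (p (gC (3 + 1)))) := by
      rw [show (3 : ℤ) - 1 = 2 by norm_num, show (3 : ℤ) + 1 = 4 by norm_num, g2, g3, g4]
      by_cases hc : b2 + b3 ≤ t3
      · left
        refine ⟨?_, ?_, ?_⟩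
        · rw [p2, p4, crs_polar]
          exact mul_pos (mul_pos WP.Rx0 WP.Rb0) (Real.sin_pos_of_pos_of_lt_pi W6 W10)
        · rw [p2, hz, crs_polar]
          exact mul_nonneg (mul_pos WP.Rx0 WQ.rb0).le
            (Real.sin_nonneg_of_nonneg_of_le_pi (by linarith) (by linarith))
        · rw [p4, hz, crs_polar' _ _ _ _ (t3 - (b2 + b3)) (by ring)]
          exact mul_nonneg (mul_pos WQ.rb0 WP.Rb0).le
            (Real.sin_nonneg_of_nonneg_of_le_pi (by linarith) (by linarith))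
      · push Not at hc
        right
        refine ⟨?_, ?_, ?_⟩
        · rw [pe, p4, crs_polar]
          exact mul_pos (mul_pos WP.Rb0 WP.Ra0) (Real.sin_pos_of_pos_of_lt_pi W7 W11)
        · rw [p4, hz, crs_polar' _ _ _ _ (b2 + b3 - t3) (by ring)]
          exact mul_nonneg (mul_pos WP.Rb0 WQ.rb0).le
            (Real.sin_nonneg_of_nonneg_of_le_pi (by linarith) (by linarith))
        · rw [pe, hz, crs_polar' _ _ _ _ (t3 + t4 - (b2 + b3)) (by ring)]
          exact mul_nonneg (mul_pos WQ.rb0 WP.Ra0).le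
            (Real.sin_nonneg_of_nonneg_of_le_pi (by linarith) (by linarith))
    obtain ⟨G1, G2⟩ := kinkgeo hGAP hp 3 hk z 0 p0 ho hv hsec
    rw [g3] at G2
    refine gen hHD hT hM hp hq hf 0 4 ho (by decide) z ?_ G1 G2
    intro j hj
    fin_cases j
    · change dist (q 4) (q 0) ≤ dist z (p 0)
      rw [q0, p0, q4, n0 _ _ WQ.rb0, hz, n0 _ _ WQ.rb0]
    · change dist (q 4) (q 1) ≤ dist z (p 1)
      rw [dist_comm (q 4), dist_comm z, dq14, p1, hz,
        dpol' _ _ _ _ (t1 + t2 + (b2 + b3)) (by ring)]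
      exact ch_mono WP.Ra0 WQ.rb0 (cos_far (by linarith) (by linarith) (by linarith))
    · change dist (q 4) (q 2) ≤ dist z (p 2)
      rw [dist_comm (q 4), dist_comm z, dq24, p2, hz, dpol]
    · change dist (q 4) (q 3) ≤ dist z (p 3)
      rw [dist_comm (q 4), dist_comm z, dq34, p3, hz,
        dpol' _ _ _ _ (t2 + (b2 + b3)) (by ring)]
      exact ch_mono WP.Ry0 WQ.rb0 (cos_far A2.le (by linarith) (by linarith))
    · exact absurd rfl hj

end E5
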